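import Mathlib
import Pool.Agent.U273.AI.H2Main

/-!
# The integral Mumford-Tate conjecture for 100 percent of the primes, from one prime number

Let `X` be a smooth projective variety over a field `k` which is finitely generated over `ℚ`, with
`H^2(X, ℚ)(1) = N ⊕ T`, `N` the algebraic classes (`k^κ`) and `T` the transcendental part, a
polarised rational Hodge structure of level two and rank `n`.  Suppose that the Mumford-Tate group is
as big as possible: it is the special orthogonal group of `T` (`HasFullMumfordTateGroup`); this is so if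
the endomorphisms of `T` are the rational scalars and the Hodge numbers satisfy the numerical
condition in `IsBig` (a theorem in the starting files).  The columns of `B` are a basis of the
lattice `H` in `N ⊕ T`.

`Γ` is the Galois group of `k` (or the fundamental group of a model), `Δ` the Galois group of
`k^conn`, `K` a number field and `s : G_K → Γ` the homomorphism given by a closed point of the generic
fibre of a model of `X`, so `s` describes the fibre `X_s` (if `k` is a number field, then `K = k` and `s` is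
the identity).

**Theorem.**  Suppose that the Mumford-Tate conjecture for `H^2(X_s)` holds at ONE prime number `ℓ₀`
(with `n` odd, `n ≥ 5`, and `ℓ₀` prime to `n - 1`, or with `n` even, `n ≥ 8`, `ℓ₀` prime to
`(n - 2) (n - 4)` and the exponent of `ℓ₀` in the discriminant of `T` even).

(1) There is a bound `C` such that for all `ℓ` outside a set of natural density zero the group `ρ_ℓ(Δ)`
is a subgroup of index at most `C` of `𝐆(ℤ_ℓ)`, for `X` and for `X_s`.  Here Larsen's theorem on the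
maximality of Galois actions is used as a hypothesis (`SatisfiesLarsenTheorem`): outside a set of
density zero the image has index at most `C` in the group of the `ℤ_ℓ`-points of its own Zariski
closure.

(2) At EVERY prime number `ℓ` at which `T ⊗ ℚ_ℓ` is an absolutely irreducible representation of `G_K`
the same is true if the image of `G_K` has index at most `C` in the group of the `ℤ_ℓ`-points of its own
Zariski closure.

So the part of Q1 that concerns the Hodge structure at a set of primes of density one is reduced to the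
rational Mumford-Tate conjecture at a single prime number.
-/

set_option autoImplicit false

namespace Pool.Agent.Results.MP_2b5912_ag.DensityOneFromOnePrime

open MvPolynomial Matrix Filter Topology NumberField IsDedekindDomain
open Pool.Agent.W544.PG (HS)

noncomputable section

section groups

variable {ι : Type} [Fintype ι] [DecidableEq ι]

/-- The value of a rational polynomial in the entries at a matrix. -/
def value {R : Type} [CommRing R] [Algebra ℚ R] (g : Matrix ι ι R)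
    (f : MvPolynomial (ι × ι) ℚ) : R :=
  aeval (fun q : ι × ι => g q.1 q.2) f

/-- `G` is the set of complex points of an algebraic subgroup over `ℚ` of the general linear
group. -/
def IsQGroup (G : Set (Matrix ι ι ℂ)) : Prop :=
  (∃ P : Set (MvPolynomial (ι × ι) ℚ), ∀ g, g ∈ G ↔ g.det ≠ 0 ∧ ∀ f ∈ P, value g f = 0) ∧
  1 ∈ G ∧ (∀ a ∈ G, ∀ b ∈ G, a * b ∈ G) ∧ ∀ a ∈ G, a⁻¹ ∈ G

/-- The complex points of the Mumford-Tate group: the smallest algebraic subgroup over `ℚ` which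
contains `h z` for all `z`. -/
def mumfordTate (h : ℂ → Matrix ι ι ℂ) : Set (Matrix ι ι ℂ) :=
  {g | ∀ G, IsQGroup G → (∀ z, z ≠ 0 → h z ∈ G) → g ∈ G}

/-- The points of the Mumford-Tate group over a field `R`. -/
def InMumfordTate {R : Type} [Field R] [Algebra ℚ R] (h : ℂ → Matrix ι ι ℂ)
    (g : Matrix ι ι R) : Prop :=
  ∀ f : MvPolynomial (ι × ι) ℚ, (∀ m ∈ mumfordTate h, value m f = 0) → value g f = 0

variable {ℓ : ℕ} [Fact ℓ.Prime] {Γ : Type} [Group Γ]

/-- The points of the identity component of the Zariski closure of `ρ(Γ)` over the algebraic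
closure of `ℚ_ℓ`: a polynomial that vanishes on the image of a subgroup of finite index vanishes
at `g`. -/
def InMonodromy (ρ : Γ →* Matrix ι ι ℚ_[ℓ]) (g : Matrix ι ι (AlgebraicClosure ℚ_[ℓ])) : Prop :=
  ∀ f : MvPolynomial (ι × ι) (AlgebraicClosure ℚ_[ℓ]),
    (∃ Δ : Subgroup Γ, Δ.FiniteIndex ∧ ∀ s ∈ Δ,
      aeval (fun q : ι × ι => algebraMap ℚ_[ℓ] (AlgebraicClosure ℚ_[ℓ]) (ρ s q.1 q.2)) f = 0) →
    aeval (fun q : ι × ι => g q.1 q.2) f = 0

/-- The Mumford-Tate conjecture: the two groups agree over `ℚ_ℓ`. -/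
def MumfordTateConjecture (h : ℂ → Matrix ι ι ℂ) (ρ : Γ →* Matrix ι ι ℚ_[ℓ]) : Prop :=
  ∀ g : Matrix ι ι (AlgebraicClosure ℚ_[ℓ]), g.det ≠ 0 → (InMonodromy ρ g ↔ InMumfordTate h g)

/-- The matrix `g` over `ℚ_ℓ` maps the lattice `B ℤ_ℓ^ι` onto itself. -/
def PreservesLattice (B : Matrix ι ι ℚ) (g : Matrix ι ι ℚ_[ℓ]) : Prop :=
  ∃ m : Matrix ι ι ℤ_[ℓ], IsUnit m ∧
    g * B.map (algebraMap ℚ ℚ_[ℓ]) = B.map (algebraMap ℚ ℚ_[ℓ]) * m.map (algebraMap ℤ_[ℓ] ℚ_[ℓ])

/-- The group `𝐆(ℤ_ℓ)` of the points of the Mumford-Tate group of `h` which preserve the lattice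
generated by the columns of `B`. -/
def integralPoints (h : ℂ → Matrix ι ι ℂ) (B : Matrix ι ι ℚ) (ℓ : ℕ) [Fact ℓ.Prime] :
    Set (Matrix ι ι ℚ_[ℓ]) :=
  {g | g.det ≠ 0 ∧ PreservesLattice B g ∧ InMumfordTate h g}

/-- The group of the `ℤ_ℓ`-points of the identity component of the Zariski closure of the image of
`ρ`. -/
def monodromyPoints (B : Matrix ι ι ℚ) (ρ : Γ →* Matrix ι ι ℚ_[ℓ]) : Set (Matrix ι ι ℚ_[ℓ]) :=
  {g | g.det ≠ 0 ∧ PreservesLattice B g ∧
    InMonodromy ρ (g.map (algebraMap ℚ_[ℓ] (AlgebraicClosure ℚ_[ℓ])))}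

/-- The group `A` is a subgroup of index at most `C` of the group `G` of matrices: `A` is contained in
`G`, and `G` is the union of at most `C` cosets `t A`, `t` in `G`. -/
def HasIndexAtMost {R : Type} [CommRing R] (C : ℕ) (A G : Set (Matrix ι ι R)) : Prop :=
  A ⊆ G ∧ ∃ T : Finset (Matrix ι ι R), T.card ≤ C ∧ (T : Set (Matrix ι ι R)) ⊆ G ∧
    ∀ g ∈ G, ∃ t ∈ T, ∃ a ∈ A, g = t * a

theorem integralPoints_eq {h : ℂ → Matrix ι ι ℂ} {B : Matrix ι ι ℚ} {ρ : Γ →* Matrix ι ι ℚ_[ℓ]}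
    (hMT : MumfordTateConjecture h ρ) : integralPoints h B ℓ = monodromyPoints B ρ := by
  ext g
  have hinj : Function.Injective (algebraMap ℚ_[ℓ] (AlgebraicClosure ℚ_[ℓ])) :=
    (algebraMap ℚ_[ℓ] (AlgebraicClosure ℚ_[ℓ])).injective
  have hval : ∀ f : MvPolynomial (ι × ι) ℚ,
      value (g.map (algebraMap ℚ_[ℓ] (AlgebraicClosure ℚ_[ℓ]))) f =
        algebraMap ℚ_[ℓ] (AlgebraicClosure ℚ_[ℓ]) (value g f) := by
    intro f
    simp only [value, MvPolynomial.aeval_def, MvPolynomial.hom_eval₂]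
    congr 1
  have hiff : InMumfordTate h (g.map (algebraMap ℚ_[ℓ] (AlgebraicClosure ℚ_[ℓ]))) ↔
      InMumfordTate h g := by
    constructor
    · intro H f hf
      have h1 := H f hf
      rw [hval] at h1
      exact hinj (h1.trans (map_zero _).symm)
    · intro H f hf
      rw [hval, H f hf, map_zero]
  have hdet : g.det ≠ 0 → (g.map (algebraMap ℚ_[ℓ] (AlgebraicClosure ℚ_[ℓ]))).det ≠ 0 := by
    intro h0 h1
    apply h0
    have h2 := (algebraMap ℚ_[ℓ] (AlgebraicClosure ℚ_[ℓ])).map_det g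
    rw [RingHom.mapMatrix_apply, h1] at h2
    exact hinj (h2.trans (map_zero _).symm)
  constructor
  · rintro ⟨h0, h1, h2⟩
    exact ⟨h0, h1, (hMT _ (hdet h0)).2 (hiff.2 h2)⟩
  · rintro ⟨h0, h1, h2⟩
    exact ⟨h0, h1, hiff.1 ((hMT _ (hdet h0)).1 h2)⟩

omit [DecidableEq ι] in
theorem HasIndexAtMost.mono {R : Type} [CommRing R] {C : ℕ} {A A' G : Set (Matrix ι ι R)}
    (h : HasIndexAtMost C A G) (h1 : A ⊆ A') (h2 : A' ⊆ G) : HasIndexAtMost C A' G := by
  obtain ⟨-, T, hT, hTG, hall⟩ := h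
  refine ⟨h2, T, hT, hTG, fun g hg => ?_⟩
  obtain ⟨t, ht, a, ha, hga⟩ := hall g hg
  exact ⟨t, ht, a, h1 ha, hga⟩

end groups

variable {n : ℕ}

/-- The action of `ℂ^×` on `N ⊕ T`: trivial on `N`, and on `T` it is multiplication by `conj z / z`,
`1`, `z / conj z` on the parts where `T.x` is `1`, `0`, `-1`. -/
def hodge (κ : Type) [Fintype κ] [DecidableEq κ] (T : HS n) (z : ℂ) :
    Matrix (κ ⊕ Fin n) (κ ⊕ Fin n) ℂ :=
  fromBlocks 1 0 0 (1 + ((starRingEnd ℂ z / z - 1) / 2) • (T.x * T.x + T.x) +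
    ((z / starRingEnd ℂ z - 1) / 2) • (T.x * T.x - T.x))

/-- The Mumford-Tate group acts trivially on `N`, and on `T` it is the group of all isometries of
determinant one. -/
def HasFullMumfordTateGroup (κ : Type) [Fintype κ] [DecidableEq κ] (T : HS n) : Prop :=
  mumfordTate (hodge κ T) = {m | ∃ t : Matrix (Fin n) (Fin n) ℂ,
    tᵀ * T.Q.map (algebraMap ℚ ℂ) * t = T.Q.map (algebraMap ℚ ℂ) ∧ t.det = 1 ∧
      m = fromBlocks 1 0 0 t}

/-- The endomorphisms of `T` are the rational scalars, and the Hodge numbers `(p, q, p)` satisfy a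
numerical condition. -/
def IsBig (T : HS n) : Prop :=
  (∀ A : Matrix (Fin n) (Fin n) ℚ,
    A.map (fun a : ℚ => (a : ℂ)) * T.x = T.x * A.map (fun a : ℚ => (a : ℂ)) →
    ∃ c : ℚ, A = c • (1 : Matrix (Fin n) (Fin n) ℚ)) ∧
  ∃ p q : ℕ, (T.x * T.x).trace = 2 * (p : ℂ) ∧ n = 2 * p + q ∧
    ((p = 1 ∧ 0 < q) ∨ (0 < p ∧ 2 * p ^ 2 * (p ^ 2 + 1) < (q - 2 * p) * (q + p)))

/-- An `ℓ`-adic integral matrix as a matrix over `ℚ_ℓ`. -/
def rat {ℓ : ℕ} [Fact ℓ.Prime] (g : Matrix (Fin n) (Fin n) ℤ_[ℓ]) :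
    Matrix (Fin n) (Fin n) ℚ_[ℓ] :=
  g.map (algebraMap ℤ_[ℓ] ℚ_[ℓ])

/-- The representation `α ⊕ β` of the Galois group on `N ⊕ T`. -/
def galois {κ : Type} [Fintype κ] [DecidableEq κ] {ℓ : ℕ} [Fact ℓ.Prime] {Γ : Type} [Group Γ]
    (α : Γ →* Matrix κ κ ℚ_[ℓ]) (β : Γ →* Matrix (Fin n) (Fin n) ℤ_[ℓ]) :
    Γ →* Matrix (κ ⊕ Fin n) (κ ⊕ Fin n) ℚ_[ℓ] where
  toFun σ := fromBlocks (α σ) 0 0 (rat (β σ))
  map_one' := (Pool.Agent.Y95.MT.tot α β).map_one
  map_mul' := (Pool.Agent.Y95.MT.tot α β).map_mul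

/-- the absolute Galois group of `K`, with its profinite (Krull) topology -/
abbrev AbsoluteGaloisGroup (K : Type) [Field K] : Type := Gal(AlgebraicClosure K/K)

/-- `σ` is an (arithmetic) Frobenius element at the prime `v` of the number field `K`: for some prime
`Q` of the algebraic closure above `v` it acts on the residue field as `x ↦ x ^ N(v)` -/
def IsFrobenius {K : Type} [Field K] [NumberField K] (v : HeightOneSpectrum (𝓞 K))
    (σ : AbsoluteGaloisGroup K) : Prop :=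
  ∃ Q : Ideal (𝓞 (AlgebraicClosure K)), Q.IsMaximal ∧
    Q.comap (algebraMap (𝓞 K) (𝓞 (AlgebraicClosure K))) = v.asIdeal ∧
    ∀ x : 𝓞 (AlgebraicClosure K), σ • x - x ^ Ideal.absNorm v.asIdeal ∈ Q

/-- `α` and `β` are the representations on the algebraic classes and on `T`: both are continuous, `α` has
finite image, `β` preserves the form of `T`, and for all `v ∉ S` which are prime to `ℓ` the
characteristic polynomial of (the image under `s` of) the geometric Frobenius elements `σ⁻¹` (`σ`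
arithmetic) at `v` on `T` is `P v` -/
def IsSystem {K : Type} [Field K] [NumberField K] {Γ : Type} [Group Γ] [TopologicalSpace Γ]
    (s : AbsoluteGaloisGroup K →* Γ) {κ : Type} [Fintype κ] [DecidableEq κ] (T : HS n)
    (S : Set (HeightOneSpectrum (𝓞 K))) (P : HeightOneSpectrum (𝓞 K) → Polynomial ℚ) (ℓ : ℕ)
    [Fact ℓ.Prime] (α : Γ →* Matrix κ κ ℚ_[ℓ]) (β : Γ →* Matrix (Fin n) (Fin n) ℤ_[ℓ]) : Prop :=
  Continuous α ∧ (Set.range α).Finite ∧ Continuous β ∧
    (∀ σ, (rat (β σ))ᵀ * T.Q.map (algebraMap ℚ ℚ_[ℓ]) * rat (β σ) =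
      T.Q.map (algebraMap ℚ ℚ_[ℓ])) ∧
    ∀ v ∉ S, (ℓ : 𝓞 K) ∉ v.asIdeal → ∀ σ : AbsoluteGaloisGroup K, IsFrobenius v σ →
      (rat (β (s σ⁻¹))).charpoly = (P v).map (algebraMap ℚ ℚ_[ℓ])

/-- the set `A` of prime numbers has natural density zero -/
def HasDensityZero (A : Set ℕ) : Prop :=
  Tendsto (fun n : ℕ => (Nat.card {ℓ : ℕ // ℓ ≤ n ∧ ℓ ∈ A} : ℝ) / (Nat.primeCounting n : ℝ))
    atTop (𝓝 0)

/-- the condition on the prime number `ℓ₀` -/
def IsSuitable (T : HS n) (ℓ₀ : ℕ) : Prop :=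
  (Odd n ∧ 5 ≤ n ∧ ¬ ℓ₀ ∣ n - 1) ∨
    (Even n ∧ 8 ≤ n ∧ ¬ ℓ₀ ∣ (n - 2) * (n - 4) ∧ Even (padicValRat ℓ₀ T.Q.det))

/-- the representation `β` of the group `G` on `T ⊗ ℚ_ℓ` is absolutely irreducible: there is no proper
nonzero stable subspace over the algebraic closure -/
def IsAbsolutelyIrreducible {ℓ : ℕ} [Fact ℓ.Prime] {G : Type} [Group G]
    (β : G →* Matrix (Fin n) (Fin n) ℤ_[ℓ]) : Prop :=
  ∀ W : Submodule (AlgebraicClosure ℚ_[ℓ]) (Fin n → AlgebraicClosure ℚ_[ℓ]),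
    (∀ g, ∀ w ∈ W, (rat (β g)).map (algebraMap ℚ_[ℓ] (AlgebraicClosure ℚ_[ℓ])) *ᵥ w ∈ W) →
      W = ⊥ ∨ W = ⊤

/-- A family of matrix representations of `Γ` over the fields `ℚ_ℓ`. -/
abbrev RationalSystem (Γ : Type) [Group Γ] (ι : Type) [Fintype ι] [DecidableEq ι] : Type :=
  ∀ (ℓ : ℕ) [Fact ℓ.Prime], Γ →* Matrix ι ι ℚ_[ℓ]

/-- A family of matrix representations of `Γ` of rank `n` over the rings `ℤ_ℓ`. -/
abbrev IntegralSystem (Γ : Type) [Group Γ] (n : ℕ) : Type :=
  ∀ (ℓ : ℕ) [Fact ℓ.Prime], Γ →* Matrix (Fin n) (Fin n) ℤ_[ℓ]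

/-- The family `α ⊕ β`, the representations on `H ⊗ ℚ_ℓ`. -/
def cohomology {κ : Type} [Fintype κ] [DecidableEq κ] {Γ : Type} [Group Γ]
    (α : RationalSystem Γ κ) (β : IntegralSystem Γ n) : RationalSystem Γ (κ ⊕ Fin n) :=
  fun ℓ _ => galois (α ℓ) (β ℓ)

/-- The family `α ⊕ β` restricted to the group `G` (by `s : G → Γ`): the representations on the
cohomology of the fibre `X_s`. -/
def fibreCohomology {κ : Type} [Fintype κ] [DecidableEq κ] {G Γ : Type} [Group G] [Group Γ]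
    (s : G →* Γ) (α : RationalSystem Γ κ) (β : IntegralSystem Γ n) :
    RationalSystem G (κ ⊕ Fin n) :=
  fun ℓ _ => galois ((α ℓ).comp s) ((β ℓ).comp s)

/-- `Δ` is an open subgroup, and for all `ℓ` the group `ρ_ℓ(Δ)` preserves the lattice given by `B` and it is
contained in the identity component of the Zariski closure of the image of `ρ_ℓ` (so `Δ` is the Galois
group of a field `k^conn`). -/
def IsConnecting {Γ ι : Type} [Group Γ] [TopologicalSpace Γ] [Fintype ι] [DecidableEq ι]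
    (B : Matrix ι ι ℚ) (ρ : RationalSystem Γ ι) (Δ : Subgroup Γ) : Prop :=
  IsOpen (Δ : Set Γ) ∧ ∀ (ℓ : ℕ) [Fact ℓ.Prime], ρ ℓ '' Δ ⊆ monodromyPoints B (ρ ℓ)

/-- **The conclusion of Larsen's theorem** on the maximality of the Galois actions: for all `ℓ` outside a
set of density zero such that the identity component of the Zariski closure of the image of `ρ_ℓ` is the
Mumford-Tate group, and such that `ρ_ℓ(Δ)` is contained in this component, the group `ρ_ℓ(Δ)` has
index at most `C` in the group of the `ℤ_ℓ`-points of this component. -/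
def SatisfiesLarsenTheorem {Γ ι : Type} [Group Γ] [Fintype ι] [DecidableEq ι] (C : ℕ)
    (h : ℂ → Matrix ι ι ℂ) (B : Matrix ι ι ℚ) (ρ : RationalSystem Γ ι) (Δ : Subgroup Γ) : Prop :=
  HasDensityZero {ℓ | ∃ _ : Fact ℓ.Prime, MumfordTateConjecture h (ρ ℓ) ∧
    ρ ℓ '' Δ ⊆ monodromyPoints B (ρ ℓ) ∧
    ¬ HasIndexAtMost C (ρ ℓ '' Δ) (monodromyPoints B (ρ ℓ))}

/-- For all `ℓ` outside a set of density zero the group `ρ_ℓ(Δ)` is a subgroup of index at most `C` of
`𝐆(ℤ_ℓ)`. -/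
def HasIndexAtMostForDensityOne {Γ ι : Type} [Group Γ] [Fintype ι] [DecidableEq ι] (C : ℕ)
    (h : ℂ → Matrix ι ι ℂ) (B : Matrix ι ι ℚ) (ρ : RationalSystem Γ ι) (Δ : Subgroup Γ) : Prop :=
  HasDensityZero {ℓ | ∃ _ : Fact ℓ.Prime,
    ¬ HasIndexAtMost C (ρ ℓ '' Δ) (integralPoints h B ℓ)}

/-- **The integral Mumford-Tate conjecture for `H^2 = N ⊕ T` for 100 percent of the primes, from one
prime number.** -/
theorem result (T : HS n)
    -- the Galois group
    (K : Type) [Field K] [NumberField K] (Γ : Type) [Group Γ] [TopologicalSpace Γ]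
    [IsTopologicalGroup Γ] [CompactSpace Γ] (s : AbsoluteGaloisGroup K →* Γ) (hs : Continuous s)
    (S : Set (HeightOneSpectrum (𝓞 K))) (hS : S.Finite)
    (P : HeightOneSpectrum (𝓞 K) → Polynomial ℚ)
    (κ : Type) [Fintype κ] [DecidableEq κ]
    (α : RationalSystem Γ κ) (β : IntegralSystem Γ n)
    (hsys : ∀ (ℓ : ℕ) [Fact ℓ.Prime], IsSystem s T S P ℓ (α ℓ) (β ℓ))
    -- the lattice `H` and the group `Δ`
    (B : Matrix (κ ⊕ Fin n) (κ ⊕ Fin n) ℚ) (Δ : Subgroup Γ)
    (hΔ : IsConnecting B (cohomology α β) Δ)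
    -- the Mumford-Tate group
    (hMT : HasFullMumfordTateGroup κ T ∨ IsBig T)
    -- the Mumford-Tate conjecture at one prime number
    (ℓ₀ : ℕ) [Fact ℓ₀.Prime] (hℓ₀ : IsSuitable T ℓ₀)
    (hone : MumfordTateConjecture (hodge κ T) (fibreCohomology s α β ℓ₀)) :
    -- 100 percent of the prime numbers
    (∀ C : ℕ, SatisfiesLarsenTheorem C (hodge κ T) B (fibreCohomology s α β) (Δ.comap s) →
      HasIndexAtMostForDensityOne C (hodge κ T) B (fibreCohomology s α β) (Δ.comap s) ∧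
      HasIndexAtMostForDensityOne C (hodge κ T) B (cohomology α β) Δ) ∧
    -- every prime number
    (∀ (ℓ : ℕ) [Fact ℓ.Prime], IsAbsolutelyIrreducible ((β ℓ).comp s) → ∀ C : ℕ,
      HasIndexAtMost C (fibreCohomology s α β ℓ '' (Δ.comap s))
        (monodromyPoints B (fibreCohomology s α β ℓ)) →
      HasIndexAtMost C (fibreCohomology s α β ℓ '' (Δ.comap s))
        (integralPoints (hodge κ T) B ℓ) ∧
      HasIndexAtMost C (cohomology α β ℓ '' Δ) (integralPoints (hodge κ T) B ℓ)) := by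
  have hFull : Pool.Agent.U273.AI.FullMT T κ := by
    rcases hMT with h | ⟨hEnd, p, q, htr, hn, hpq⟩
    · exact Pool.Agent.U273.AI.fullMT_of_eq h
    · by_cases hn1 : p = 1 ∧ q = 0
      · exfalso
        rcases hpq with h | h
        · omega
        · rw [hn1.1, hn1.2] at h
          omega
      refine Pool.Agent.U273.AI.fullMT_of_big (p := fun _ => p) (q := fun _ => q) ?_
      refine ⟨fun a b hab => absurd rfl hab, fun a b hab => absurd rfl hab, fun A hA => ?_,
        fun i => ?_, fun i => ?_, fun i => ?_⟩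
      · obtain ⟨c, hc⟩ := hEnd A hA
        exact ⟨fun _ => c, by rw [hc, Matrix.smul_one_eq_diagonal]⟩
      · rw [← htr, Matrix.trace]
        refine Finset.sum_congr ?_ fun _ _ => rfl
        ext a
        simp [Subsingleton.elim (0 : Fin 1) i]
      · have h1 : (Finset.univ.filter fun a : Fin n => Pool.Agent.R932.one1 n a = i) =
            Finset.univ := by
          ext a
          simp [Subsingleton.elim (0 : Fin 1) i]
        rw [h1, Finset.card_univ, Fintype.card_fin, hn]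
      · rcases hpq with ⟨h1, h2⟩ | h1
        · refine Or.inl ⟨h1, h2, ?_⟩
          rintro h3
          rw [h1, h3] at hn
          rcases hℓ₀ with ⟨-, h4, -⟩ | ⟨-, h4, -⟩ <;> omega
        · exact Or.inr h1
  have hrep : ∀ (ℓ : ℕ) [Fact ℓ.Prime], Pool.Agent.R932.RepT s T S P ℓ (β ℓ) := fun ℓ _ =>
    ⟨(hsys ℓ).2.2.1, (hsys ℓ).2.2.2.1, (hsys ℓ).2.2.2.2⟩
  obtain ⟨kd, hfit, hal⟩ : ∃ kd : Pool.Agent.R932.PO.Kind, Pool.Agent.R932.PO.Fits kd T.Q ∧
      Pool.Agent.R932.PO.Allows kd n ℓ₀ (T.Q.map (algebraMap ℚ ℚ_[ℓ₀])) := by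
    rcases hℓ₀ with ⟨h1, h2, h3⟩ | ⟨h1, h2, h3, h4⟩
    · exact ⟨.odd, ⟨T.symm, h1, h2⟩, h3⟩
    · refine ⟨.even, ⟨T.symm, h1, h2⟩, h3, ?_⟩
      have h5 : (T.Q.map (algebraMap ℚ ℚ_[ℓ₀])).det = ((T.Q.det : ℚ) : ℚ_[ℓ₀]) := by
        have h6 := (algebraMap ℚ ℚ_[ℓ₀]).map_det T.Q
        rw [RingHom.mapMatrix_apply] at h6
        rw [← h6, eq_ratCast]
      rw [h5, Padic.valuation_ratCast]
      exact h4
  obtain ⟨h1, h2, -⟩ := Pool.Agent.U273.AI.h2_main hfit hFull hS hs α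
    (fun ℓ _ => ⟨(hsys ℓ).1, (hsys ℓ).2.1⟩) β hrep ℓ₀ hal hone
  have h1' : HasDensityZero {ℓ | ∃ _ : Fact ℓ.Prime,
      ¬ MumfordTateConjecture (hodge κ T) (fibreCohomology s α β ℓ)} := h1
  have h2' : ∀ (ℓ : ℕ) [Fact ℓ.Prime],
      (MumfordTateConjecture (hodge κ T) (fibreCohomology s α β ℓ) ↔
        IsAbsolutelyIrreducible ((β ℓ).comp s)) ∧
      (MumfordTateConjecture (hodge κ T) (fibreCohomology s α β ℓ) →
        MumfordTateConjecture (hodge κ T) (cohomology α β ℓ)) := fun ℓ _ => h2 ℓ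
  have hsub : ∀ (ℓ : ℕ) [Fact ℓ.Prime],
      fibreCohomology s α β ℓ '' (Δ.comap s) ⊆ cohomology α β ℓ '' Δ := by
    rintro ℓ _ _ ⟨σ, hσ, rfl⟩
    exact ⟨s σ, hσ, rfl⟩
  have hin : ∀ (ℓ : ℕ) [Fact ℓ.Prime],
      MumfordTateConjecture (hodge κ T) (fibreCohomology s α β ℓ) →
      cohomology α β ℓ '' Δ ⊆ integralPoints (hodge κ T) B ℓ := by
    intro ℓ _ hm
    rw [integralPoints_eq ((h2' ℓ).2 hm)]
    exact hΔ.2 ℓ
  have key : ∀ (ℓ : ℕ) [Fact ℓ.Prime],
      MumfordTateConjecture (hodge κ T) (fibreCohomology s α β ℓ) → ∀ C : ℕ,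
      HasIndexAtMost C (fibreCohomology s α β ℓ '' (Δ.comap s))
        (monodromyPoints B (fibreCohomology s α β ℓ)) →
      HasIndexAtMost C (fibreCohomology s α β ℓ '' (Δ.comap s))
        (integralPoints (hodge κ T) B ℓ) ∧
      HasIndexAtMost C (cohomology α β ℓ '' Δ) (integralPoints (hodge κ T) B ℓ) := by
    intro ℓ _ hm C hC
    rw [← integralPoints_eq hm] at hC
    exact ⟨hC, hC.mono (hsub ℓ) (hin ℓ hm)⟩
  refine ⟨fun C hL => ?_, fun ℓ _ hirr C hC => key ℓ ((h2' ℓ).1.2 hirr) C hC⟩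
  have hzero := Pool.Agent.Y142.ZI.DensityZero.union h1' hL
  constructor
  · refine Pool.Agent.Y142.ZI.DensityZero.mono hzero ?_
    rintro ℓ ⟨hp, hno⟩
    by_cases hm : MumfordTateConjecture (hodge κ T) (fibreCohomology s α β ℓ)
    · right
      refine ⟨hp, hm, ?_, fun hC => hno (key ℓ hm C hC).1⟩
      rw [← integralPoints_eq hm]
      exact (hsub ℓ).trans (hin ℓ hm)
    · exact Or.inl ⟨hp, hm⟩
  · refine Pool.Agent.Y142.ZI.DensityZero.mono hzero ?_
    rintro ℓ ⟨hp, hno⟩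
    by_cases hm : MumfordTateConjecture (hodge κ T) (fibreCohomology s α β ℓ)
    · right
      refine ⟨hp, hm, ?_, fun hC => hno (key ℓ hm C hC).2⟩
      rw [← integralPoints_eq hm]
      exact (hsub ℓ).trans (hin ℓ hm)
    · exact Or.inl ⟨hp, hm⟩

end

end Pool.Agent.Results.MP_2b5912_ag.DensityOneFromOnePrime
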