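import Pool.Agent.U483.KI.Main

/-!
# The integral Mumford-Tate conjecture for `H^2` and the Grothendieck group of varieties

`𝓜` is the semisimple tensor category of the motives over `k` for absolute Hodge cycles (Deligne) and
`H.h i w X = gr^W_w h^i_c(X)` for all separated schemes `X` of finite type over `k` (Deligne, Jannsen); the structures
`CompactCoh` and `IsMultiplicative` list the known properties which are used. `𝒯` is the class of the
motives `C` for which `C(1)` is an Artin motive, and `IMT X` is the statement of the problem (bounded index of the
image of Galois in `G(ℤ_ℓ)`) for the smooth projective `X`. It only depends on the class generated by `h^2(X)` and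
`𝒯` under direct sums and direct factors (`IsIntegral`): if each of `h^2(X)`, `h^2(X')` is a direct factor of a sum
of copies of the other one and of a member of `𝒯` then, over a finite extension of `k`, the Mumford-Tate
groups of `H` and `H'` (over `ℤ_ℓ`, for almost all `ℓ`) and the images of Galois are identified, and for the
remaining `ℓ` the groups `G(ℤ_ℓ)`, `G'(ℤ_ℓ)` are commensurable.

* (1), (2): For smooth projective `X` and `X'` of any dimensions, the integral Mumford-Tate conjecture for
  `H^2(X)` is equivalent to the one for `H^2(X')` if a nonzero multiple of the difference of the classes in the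
  Grothendieck group `K_0(Var_k)` of varieties is generated by the classes of schemes (open, singular) whose pieces
  `gr^W_2 h^n_c(Y)` are in `𝒯` (for instance curves, products with `𝔸^1`, smooth projective schemes with
  `h^{2,0} = 0`), or more generally if each of the classes is generated by classes of schemes whose pieces of weight
  two are in the class generated by the other motive `h^2` and `𝒯`.
* (3), (4): If the conjecture is known for a class `𝒜` of motives which is closed under direct sums and direct
  factors (for instance the motives in the category generated by abelian varieties for which the usual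
  Mumford-Tate conjecture holds: Commelin, Cadoret, Moonen), then it holds for all smooth projective `X` for
  which a nonzero multiple of the class is generated by the classes of the schemes with pieces of weight two in
  `𝒜`.
-/

set_option autoImplicit false

open CategoryTheory AlgebraicGeometry Pool.Agent.Y116.UV Pool.Agent.U483.KM Pool.Agent.U483.GU
  Pool.Agent.U483.KP Pool.Agent.U483.KI

namespace Pool.Agent.Results.MP_2b5912_ag.GrothendieckRing

universe w x

theorem result (k : Type) [Field k] (𝓜 : Type w) [Category.{x} 𝓜] [Abelian 𝓜] [Linear ℚ 𝓜]
    [MonoidalCategory 𝓜] (H : CompactCoh.{w, x} k 𝓜) (L : 𝓜) (hH : IsMultiplicative H L)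
    (𝒯 : 𝓜 → Prop) (IMT : Var k → Prop) (hI : IsIntegral H 𝒯 IMT) :
    -- classes generated by motives of weight two of the other scheme
    Criterion H 𝒯 IMT ∧
    -- congruent classes
    Congruence H 𝒯 IMT ∧
    -- classes generated by schemes with known motives of weight two
    (∀ 𝒜 : 𝓜 → Prop, IsThick 𝒜 → Suffices H 𝒜 IMT → HoldsOn (weightTwo H 𝒜) IMT) ∧
    -- schemes built from known ones
    (∀ 𝒜 : 𝓜 → Prop, IsTensorThick 𝒜 → 𝒜 L → Suffices H 𝒜 IMT → ∀ (B : Sch k → Prop) (D : ℕ),
      Pieces H 𝒜 B D → HoldsOn (builtGroup k B D) IMT) := by
  refine ⟨fun X X' hX hX' n hn h h' => imt_iff hI hX hX' hn h h',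
    fun X X' hX hX' n hn h => imt_mod hI hX hX' hn h,
    fun 𝒜 h𝒜 hA X hX n hn h => hA X hX (piece_of_smul_mem H h𝒜 hX hn h),
    fun 𝒜 h𝒜 hL hA B D hB X hX n hn h => hA X hX (piece_of_smul_mem H h𝒜.toIsThick hX hn ?_)⟩
  refine AddSubgroup.closure_mono ?_ h
  rintro c ⟨Y, hY, rfl⟩
  exact ⟨Y, fun m => (in_built hH h𝒜 hL hB.1 hB.2 hY).2 m 2, rfl⟩

end Pool.Agent.Results.MP_2b5912_ag.GrothendieckRing
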