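import Pool.Agent.U175.LP.S11

/-!
# The integral Mumford-Tate conjecture for `H^2` and residual Galois groups

Let `X` be a smooth projective variety over a field `k` which is finitely generated over `ℚ`, and `H`
the torsion-free quotient of `H^2(X, ℤ(1))`. Then `H ⊗ ℚ = N ⊕ T`, `N` the algebraic classes (`ℚ^κ`) and
`T` the transcendental part, a polarised rational Hodge structure of level two and rank `n`; the
columns of the matrix `B` are a basis of the lattice `H` in the coordinates of `N ⊕ T`. Suppose that the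
Mumford-Tate group is as big as possible, the special orthogonal group of `T`
(`HasFullMumfordTateGroup`). This is so if the endomorphisms of `T` are the rational scalars and the
Hodge numbers `(p, q, p)` satisfy `p = 1`, or `2 p^2 (p^2 + 1) < (q - 2 p) (q + p)` (`IsBig`; a theorem in
the starting files), and for the general member of most families. So `X` may be a surface with
`p_g > 1`, for example a surface of degree at least five in the projective space.

`Γ` is the Galois group of `k` (or the fundamental group of a model), `K` a number field and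
`s : G_K → Γ` the homomorphism given by a closed point of the generic fibre of a model of `X`; so
`s` describes the fibre `X_s`, a smooth projective variety over `K` with the same cohomology (if `k` is
a number field, then `K = k` and `s` is the identity). `Γ` acts on `N ⊗ ℚ_ℓ` through a finite group, it
preserves the intersection form on `T` and the lattice `H ⊗ ℤ_ℓ`, and at the places `v` of `K` of good
reduction the characteristic polynomial `P_v` of the geometric Frobenius on `T` has rational
coefficients which do not depend on `ℓ` (Deligne). In the coordinates of `T` the lattice `ℤ_ℓ ^ n` is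
stable (for example, the coordinates are given by a basis of `H ∩ T`).

`𝐆(ℤ_ℓ)` is the group of all automorphisms of the lattice `H ⊗ ℤ_ℓ` in the Mumford-Tate group
(`integralPoints`). `Δ` is the Galois group of a field `k^conn` as in the problem: an open subgroup such
that for every `ℓ` its image is in the identity component of the Zariski closure of the image of the
whole group (`IsConnecting`). The statement of Q1 is `IntegralMumfordTateConjecture`: for some constant
`C` and for EVERY prime number `ℓ` the group `ρ_ℓ(Δ)` is a subgroup of `𝐆(ℤ_ℓ)` of index at most `C`.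

Suppose that for all but finitely many `ℓ` some element of `G_K` acts on `T / ℓ` as a reflection. By the
Picard-Lefschetz formula this is true if the dimension of `X` is two and `X_s` acquires one ordinary
double point (on a regular model) at some place of `K`.

**Theorem.** There is a constant `c`, which depends only on `n`, such that

(1) the integral Mumford-Tate conjecture (Q1) holds for `X_s` if and only if

 * for every `ℓ` the representation of `G_K` on `T ⊗ ℚ_ℓ` is absolutely irreducible, and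
 * for all but finitely many `ℓ` the finite group `G`, the image of `G_K` in the orthogonal group of
   `T / ℓ`, is primitive (a subspace `W` such that for all `g` in `G` the subspace `g W` is equal to `W`
   or orthogonal to `W` is zero or the whole space) and its order is divisible by `ℓ`;

(2) in this case the index for `X_s` is at most `c [G_K : Δ]` for all but finitely many `ℓ`, and the
integral Mumford-Tate conjecture holds for `X`, too;

(3) at every single prime number `ℓ ≥ c` such that the finite group `G` of (1) at `ℓ` is primitive,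
contains a reflection and has an order divisible by `ℓ`, the image of `G_K` is a subgroup of index
at most `c` in the group of all isometries of the lattice `ℤ_ℓ ^ n` in `T ⊗ ℚ_ℓ`.

So the unbounded loss which Q1 forbids could only come from residual groups which are imprimitive or
of order prime to `ℓ`; nothing about the size of the residual groups is assumed.

Proof. Let `ℓ > 2 n`. (a) The logarithms of the elements of order `ℓ` of `G` span a subspace `L` of the
orthogonal Lie algebra modulo `ℓ`. The conjugates of a matrix by `u ^ t` depend on `t` as a polynomial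
of degree less than `ℓ`, so `L` is closed under commutators (`LU_lie`, an idea of Nori). The theorem on
Lie algebras normalized by a connected spanning family of reflections (`RefHyp.full`) shows that `L`
is the whole orthogonal Lie algebra (`so_mem'`). (b) If `u` is the image of the Galois element `g`,
then `g ^ ℓ` is congruent to `1 + ℓ log u`, and by successive approximation the image of Galois
contains all isometries congruent to one (`mem_range_of_red`). (c) Choose elements `u_1, ..., u_d` of
order `ℓ` in `G` whose logarithms are a basis of `L`. The product of the powers `u_i ^ t_i` is a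
polynomial map in `t` whose derivative at `0` is injective. By linear algebra every coordinate `t_i`
satisfies an algebraic equation of bounded degree over the coordinates of the value, the leading
coefficients do not vanish identically (`aeval_ne`), and the lemma of Schwartz and Zippel shows that
there are at least `ℓ ^ d / C(n)` values (`card_values`). (d) By the Cayley transformation the
orthogonal group modulo `ℓ` has at most `2 ^ n ℓ ^ d` elements (`card_orth_le`). So the index is
bounded (`index_bound`); this is (3). (e) The Mumford-Tate conjecture at one large prime number follows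
and gives it at every prime number at which `T ⊗ ℚ_ℓ` is absolutely irreducible (library
`Pool.Agent.U273.AI`, helper273); so the image is open for every `ℓ`, and the index is finite at the
remaining prime numbers by compactness. (f) Conversely, if the index is at most `C`, then the image at
every `ℓ` is open (`open_of_idx`), and if `ℓ > C` it contains modulo `ℓ` the Cayley transforms of all
nilpotent exterior products (`cay_mem`), since a power with exponent at most `C` is in the image; these
generate a primitive group (`prim_of_cu`).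
-/

set_option autoImplicit false

namespace Pool.Agent.Results.MP_2b5912_ag.ResidualCriterion

open MvPolynomial Matrix NumberField IsDedekindDomain
open Pool.Agent.W544.PG (HS)

noncomputable section

section groups

variable {ι : Type} [Fintype ι] [DecidableEq ι]

/-- The value of a rational polynomial in the entries at a matrix. -/
def value {R : Type} [CommRing R] [Algebra ℚ R] (g : Matrix ι ι R)
    (f : MvPolynomial (ι × ι) ℚ) : R :=
  aeval (fun q : ι × ι => g q.1 q.2) f

/-- `G` is the set of complex points of an algebraic subgroup over `ℚ` of the general linear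
group. -/
def IsQGroup (G : Set (Matrix ι ι ℂ)) : Prop :=
  (∃ P : Set (MvPolynomial (ι × ι) ℚ), ∀ g, g ∈ G ↔ g.det ≠ 0 ∧ ∀ f ∈ P, value g f = 0) ∧
  1 ∈ G ∧ (∀ a ∈ G, ∀ b ∈ G, a * b ∈ G) ∧ ∀ a ∈ G, a⁻¹ ∈ G

/-- The complex points of the Mumford-Tate group: the smallest algebraic subgroup over `ℚ` which
contains `h z` for all `z`. -/
def mumfordTate (h : ℂ → Matrix ι ι ℂ) : Set (Matrix ι ι ℂ) :=
  {g | ∀ G, IsQGroup G → (∀ z, z ≠ 0 → h z ∈ G) → g ∈ G}

/-- The points of the Mumford-Tate group over a field `R`. -/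
def InMumfordTate {R : Type} [Field R] [Algebra ℚ R] (h : ℂ → Matrix ι ι ℂ)
    (g : Matrix ι ι R) : Prop :=
  ∀ f : MvPolynomial (ι × ι) ℚ, (∀ m ∈ mumfordTate h, value m f = 0) → value g f = 0

variable {ℓ : ℕ} [Fact ℓ.Prime] {Γ : Type} [Group Γ]

/-- The points of the identity component of the Zariski closure of `ρ(Γ)` over the algebraic
closure of `ℚ_ℓ`: a polynomial that vanishes on the image of a subgroup of finite index vanishes
at `g`. -/
def InMonodromy (ρ : Γ →* Matrix ι ι ℚ_[ℓ]) (g : Matrix ι ι (AlgebraicClosure ℚ_[ℓ])) : Prop :=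
  ∀ f : MvPolynomial (ι × ι) (AlgebraicClosure ℚ_[ℓ]),
    (∃ Δ : Subgroup Γ, Δ.FiniteIndex ∧ ∀ s ∈ Δ,
      aeval (fun q : ι × ι => algebraMap ℚ_[ℓ] (AlgebraicClosure ℚ_[ℓ]) (ρ s q.1 q.2)) f = 0) →
    aeval (fun q : ι × ι => g q.1 q.2) f = 0

/-- The matrix `g` over `ℚ_ℓ` maps the lattice `B ℤ_ℓ^ι` onto itself. -/
def PreservesLattice (B : Matrix ι ι ℚ) (g : Matrix ι ι ℚ_[ℓ]) : Prop :=
  ∃ m : Matrix ι ι ℤ_[ℓ], IsUnit m ∧
    g * B.map (algebraMap ℚ ℚ_[ℓ]) = B.map (algebraMap ℚ ℚ_[ℓ]) * m.map (algebraMap ℤ_[ℓ] ℚ_[ℓ])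

/-- The group `𝐆(ℤ_ℓ)` of the points of the Mumford-Tate group of `h` which preserve the lattice
generated by the columns of `B`. -/
def integralPoints (h : ℂ → Matrix ι ι ℂ) (B : Matrix ι ι ℚ) (ℓ : ℕ) [Fact ℓ.Prime] :
    Set (Matrix ι ι ℚ_[ℓ]) :=
  {g | PreservesLattice B g ∧ InMumfordTate h g}

/-- The group `A` is a subgroup of index at most `C` of the group `G` of matrices: `A` is contained in
`G`, and `G` is the union of at most `C` cosets `t A`, `t` in `G`. -/
def HasIndexAtMost {R : Type} [CommRing R] (C : ℕ) (A G : Set (Matrix ι ι R)) : Prop :=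
  A ⊆ G ∧ ∃ T : Finset (Matrix ι ι R), T.card ≤ C ∧ (T : Set (Matrix ι ι R)) ⊆ G ∧
    ∀ g ∈ G, ∃ t ∈ T, ∃ a ∈ A, g = t * a

/-- `Δ` is an open subgroup, and for every `ℓ` its image is in the identity component of the Zariski
closure of the image of `Γ` (so `Δ` is the Galois group of a field `k^conn`). -/
def IsConnecting [TopologicalSpace Γ] (ρ : ∀ (ℓ : ℕ) [Fact ℓ.Prime], Γ →* Matrix ι ι ℚ_[ℓ])
    (Δ : Subgroup Γ) : Prop :=
  IsOpen (Δ : Set Γ) ∧ ∀ (ℓ : ℕ) [Fact ℓ.Prime], ∀ σ ∈ Δ,
    InMonodromy (ρ ℓ) ((ρ ℓ σ).map (algebraMap ℚ_[ℓ] (AlgebraicClosure ℚ_[ℓ])))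

/-- **The integral Mumford-Tate conjecture**: for some `C` and for every prime number `ℓ` the group
`ρ_ℓ(Δ)` is a subgroup of index at most `C` of `𝐆(ℤ_ℓ)`. -/
def IntegralMumfordTateConjecture (h : ℂ → Matrix ι ι ℂ) (B : Matrix ι ι ℚ)
    (ρ : ∀ (ℓ : ℕ) [Fact ℓ.Prime], Γ →* Matrix ι ι ℚ_[ℓ]) (Δ : Subgroup Γ) : Prop :=
  ∃ C : ℕ, ∀ (ℓ : ℕ) [Fact ℓ.Prime], HasIndexAtMost C (ρ ℓ '' Δ) (integralPoints h B ℓ)

end groups

variable {n : ℕ}

/-- The action of `ℂ^×` on `N ⊕ T`: trivial on `N`, and on `T` it is multiplication by `conj z / z`,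
`1`, `z / conj z` on the parts where `T.x` is `1`, `0`, `-1`. -/
def hodge (κ : Type) [Fintype κ] [DecidableEq κ] (T : HS n) (z : ℂ) :
    Matrix (κ ⊕ Fin n) (κ ⊕ Fin n) ℂ :=
  fromBlocks 1 0 0 (1 + ((starRingEnd ℂ z / z - 1) / 2) • (T.x * T.x + T.x) +
    ((z / starRingEnd ℂ z - 1) / 2) • (T.x * T.x - T.x))

/-- The Mumford-Tate group acts trivially on `N`, and on `T` it is the group of all isometries of
determinant one. -/
def HasFullMumfordTateGroup (κ : Type) [Fintype κ] [DecidableEq κ] (T : HS n) : Prop :=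
  mumfordTate (hodge κ T) = {m | ∃ t : Matrix (Fin n) (Fin n) ℂ,
    tᵀ * T.Q.map (algebraMap ℚ ℂ) * t = T.Q.map (algebraMap ℚ ℂ) ∧ t.det = 1 ∧
      m = fromBlocks 1 0 0 t}

/-- The endomorphisms of `T` are the rational scalars, and the Hodge numbers `(p, q, p)` satisfy a
numerical condition. -/
def IsBig (T : HS n) : Prop :=
  (∀ A : Matrix (Fin n) (Fin n) ℚ,
    A.map (fun a : ℚ => (a : ℂ)) * T.x = T.x * A.map (fun a : ℚ => (a : ℂ)) →
    ∃ c : ℚ, A = c • (1 : Matrix (Fin n) (Fin n) ℚ)) ∧
  ∃ p q : ℕ, (T.x * T.x).trace = 2 * (p : ℂ) ∧ n = 2 * p + q ∧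
    ((p = 1 ∧ 0 < q) ∨ (0 < p ∧ 2 * p ^ 2 * (p ^ 2 + 1) < (q - 2 * p) * (q + p)))

/-- An `ℓ`-adic integral matrix as a matrix over `ℚ_ℓ`. -/
def rat {ℓ : ℕ} [Fact ℓ.Prime] (g : Matrix (Fin n) (Fin n) ℤ_[ℓ]) :
    Matrix (Fin n) (Fin n) ℚ_[ℓ] :=
  g.map (algebraMap ℤ_[ℓ] ℚ_[ℓ])

/-- The representation `α ⊕ β` of the Galois group on `N ⊕ T`. -/
def galois {κ : Type} [Fintype κ] [DecidableEq κ] {ℓ : ℕ} [Fact ℓ.Prime] {Γ : Type} [Group Γ]
    (α : Γ →* Matrix κ κ ℚ_[ℓ]) (β : Γ →* Matrix (Fin n) (Fin n) ℤ_[ℓ]) :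
    Γ →* Matrix (κ ⊕ Fin n) (κ ⊕ Fin n) ℚ_[ℓ] where
  toFun σ := fromBlocks (α σ) 0 0 (rat (β σ))
  map_one' := (Pool.Agent.Y95.MT.tot α β).map_one
  map_mul' := (Pool.Agent.Y95.MT.tot α β).map_mul

/-- the absolute Galois group of `K`, with its profinite (Krull) topology -/
abbrev AbsoluteGaloisGroup (K : Type) [Field K] : Type := Gal(AlgebraicClosure K/K)

/-- `σ` is an (arithmetic) Frobenius element at the prime `v` of the number field `K`: for some prime
`Q` of the algebraic closure above `v` it acts on the residue field as `x ↦ x ^ N(v)` -/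
def IsFrobenius {K : Type} [Field K] [NumberField K] (v : HeightOneSpectrum (𝓞 K))
    (σ : AbsoluteGaloisGroup K) : Prop :=
  ∃ Q : Ideal (𝓞 (AlgebraicClosure K)), Q.IsMaximal ∧
    Q.comap (algebraMap (𝓞 K) (𝓞 (AlgebraicClosure K))) = v.asIdeal ∧
    ∀ x : 𝓞 (AlgebraicClosure K), σ • x - x ^ Ideal.absNorm v.asIdeal ∈ Q

/-- `α` and `β` are the representations on the algebraic classes and on `T`: both are continuous, `α` has
finite image, `β` preserves the form of `T`, and for all `v ∉ S` which are prime to `ℓ` the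
characteristic polynomial of (the image under `s` of) the geometric Frobenius elements `σ⁻¹` (`σ`
arithmetic) at `v` on `T` is `P v` -/
def IsSystem {K : Type} [Field K] [NumberField K] {Γ : Type} [Group Γ] [TopologicalSpace Γ]
    (s : AbsoluteGaloisGroup K →* Γ) {κ : Type} [Fintype κ] [DecidableEq κ] (T : HS n)
    (S : Set (HeightOneSpectrum (𝓞 K))) (P : HeightOneSpectrum (𝓞 K) → Polynomial ℚ) (ℓ : ℕ)
    [Fact ℓ.Prime] (α : Γ →* Matrix κ κ ℚ_[ℓ]) (β : Γ →* Matrix (Fin n) (Fin n) ℤ_[ℓ]) : Prop :=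
  Continuous α ∧ (Set.range α).Finite ∧ Continuous β ∧
    (∀ σ, (rat (β σ))ᵀ * T.Q.map (algebraMap ℚ ℚ_[ℓ]) * rat (β σ) =
      T.Q.map (algebraMap ℚ ℚ_[ℓ])) ∧
    ∀ v ∉ S, (ℓ : 𝓞 K) ∉ v.asIdeal → ∀ σ : AbsoluteGaloisGroup K, IsFrobenius v σ →
      (rat (β (s σ⁻¹))).charpoly = (P v).map (algebraMap ℚ ℚ_[ℓ])

section residual

variable {p : ℕ} [Fact p.Prime]

/-- The reduction modulo `p` of an integral `p`-adic matrix. -/
def reduction (g : Matrix (Fin n) (Fin n) ℤ_[p]) : Matrix (Fin n) (Fin n) (ZMod p) :=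
  g.map PadicInt.toZMod

/-- The product of two vectors modulo `p` for the form with the matrix `J`. -/
def product (J : Matrix (Fin n) (Fin n) ℤ_[p]) (x y : Fin n → ZMod p) : ZMod p :=
  x ⬝ᵥ reduction J *ᵥ y

/-- `J` is the matrix of a nonzero multiple of the form of `T`, integral and not zero modulo `p`. -/
def IsFormOn (T : HS n) (J : Matrix (Fin n) (Fin n) ℤ_[p]) : Prop :=
  (∃ c : ℚ_[p], c ≠ 0 ∧ J.map (algebraMap ℤ_[p] ℚ_[p]) = c • T.Q.map (algebraMap ℚ ℚ_[p])) ∧
    reduction J ≠ 0

/-- The residual representation is primitive: the only subspaces `W` such that for all `g` the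
subspace `g W` is equal to `W` or orthogonal to `W` are zero and the whole space. -/
def IsPrimitive {G : Type} [Group G] (J : Matrix (Fin n) (Fin n) ℤ_[p])
    (β : G →* Matrix (Fin n) (Fin n) ℤ_[p]) : Prop :=
  ∀ W : Submodule (ZMod p) (Fin n → ZMod p),
    (∀ g, W.map (reduction (β g)).mulVecLin = W ∨
      ∀ x ∈ W, ∀ y ∈ W, product J (reduction (β g) *ᵥ x) y = 0) → W = ⊥ ∨ W = ⊤

/-- Some element acts modulo `p` as a reflection `x ↦ x - (2 ⟨v, x⟩ / ⟨v, v⟩) v`. -/
def HasReflection {G : Type} [Group G] (J : Matrix (Fin n) (Fin n) ℤ_[p])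
    (β : G →* Matrix (Fin n) (Fin n) ℤ_[p]) : Prop :=
  ∃ (g : G) (v : Fin n → ZMod p), product J v v ≠ 0 ∧
    ∀ x, reduction (β g) *ᵥ x = x - (2 * product J v x / product J v v) • v

/-- The order of the residual group is divisible by `p`: it has an element of order `p`. -/
def HasElementOfOrder {G : Type} [Group G] (β : G →* Matrix (Fin n) (Fin n) ℤ_[p]) : Prop :=
  ∃ g : G, reduction (β g) ≠ 1 ∧ reduction (β g) ^ p = 1

end residual

/-- the representation `β` of the group `G` on `T ⊗ ℚ_ℓ` is absolutely irreducible: there is no proper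
nonzero stable subspace over the algebraic closure -/
def IsAbsolutelyIrreducible {ℓ : ℕ} [Fact ℓ.Prime] {G : Type} [Group G]
    (β : G →* Matrix (Fin n) (Fin n) ℤ_[ℓ]) : Prop :=
  ∀ W : Submodule (AlgebraicClosure ℚ_[ℓ]) (Fin n → AlgebraicClosure ℚ_[ℓ]),
    (∀ g, ∀ w ∈ W, (rat (β g)).map (algebraMap ℚ_[ℓ] (AlgebraicClosure ℚ_[ℓ])) *ᵥ w ∈ W) →
      W = ⊥ ∨ W = ⊤

/-- `Q ℓ` holds for all but finitely many prime numbers `ℓ`. -/
def ForAlmostAllPrimes (Q : ∀ (ℓ : ℕ) [Fact ℓ.Prime], Prop) : Prop :=
  {ℓ : ℕ | ∃ _ : Fact ℓ.Prime, ¬ Q ℓ}.Finite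

/-- A family of matrix representations of `Γ` over the fields `ℚ_ℓ`. -/
abbrev RationalSystem (Γ : Type) [Group Γ] (ι : Type) [Fintype ι] [DecidableEq ι] : Type :=
  ∀ (ℓ : ℕ) [Fact ℓ.Prime], Γ →* Matrix ι ι ℚ_[ℓ]

/-- A family of matrix representations of `Γ` of rank `n` over the rings `ℤ_ℓ`. -/
abbrev IntegralSystem (Γ : Type) [Group Γ] (n : ℕ) : Type :=
  ∀ (ℓ : ℕ) [Fact ℓ.Prime], Γ →* Matrix (Fin n) (Fin n) ℤ_[ℓ]

/-- The family `α ⊕ β`, the Galois representations on `H ⊗ ℚ_ℓ`. -/
def cohomology {κ : Type} [Fintype κ] [DecidableEq κ] {Γ : Type} [Group Γ]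
    (α : RationalSystem Γ κ) (β : IntegralSystem Γ n) : RationalSystem Γ (κ ⊕ Fin n) :=
  fun ℓ _ => galois (α ℓ) (β ℓ)

/-- The restriction of a family of representations of `Γ` to the group `G` (by `s : G → Γ`). -/
def pullback {G Γ : Type} [Group G] [Group Γ] (s : G →* Γ) {ι : Type} [Fintype ι] [DecidableEq ι]
    (ρ : RationalSystem Γ ι) : RationalSystem G ι :=
  fun ℓ _ => (ρ ℓ).comp s

/-- The restriction of a family of representations of `Γ` to the group `G` (by `s : G → Γ`). -/
def restriction {G Γ : Type} [Group G] [Group Γ] (s : G →* Γ) (β : IntegralSystem Γ n) :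
    IntegralSystem G n :=
  fun ℓ _ => (β ℓ).comp s

/-- For almost all `ℓ` some element of `G` acts on `T / ℓ` as a reflection. -/
def HasReflections {G : Type} [Group G] (T : HS n) (β : IntegralSystem G n) : Prop :=
  ForAlmostAllPrimes fun ℓ _ => ∀ J : Matrix (Fin n) (Fin n) ℤ_[ℓ], IsFormOn T J →
    HasReflection J (β ℓ)

/-- **The residual criterion**: `T ⊗ ℚ_ℓ` is absolutely irreducible for every `ℓ`, and for almost all
`ℓ` the image of `G` modulo `ℓ` is primitive of order divisible by `ℓ`. -/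
def SatisfiesCriterion {G : Type} [Group G] (T : HS n) (β : IntegralSystem G n) : Prop :=
  (∀ (ℓ : ℕ) [Fact ℓ.Prime], IsAbsolutelyIrreducible (β ℓ)) ∧
    ForAlmostAllPrimes fun ℓ _ => ∀ J : Matrix (Fin n) (Fin n) ℤ_[ℓ], IsFormOn T J →
      IsPrimitive J (β ℓ) ∧ HasElementOfOrder (β ℓ)

/-- **The bound at one prime number**: at every prime number `ℓ ≥ c` at which the image of `G` modulo
`ℓ` is primitive, contains a reflection and has an order divisible by `ℓ`, the image of `G` has index at
most `c` in the group of the isometries of `ℤ_ℓ ^ n`. -/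
def HasUniformBound {G : Type} [Group G] (c : ℕ) (T : HS n) (β : IntegralSystem G n) : Prop :=
  ∀ (ℓ : ℕ) [Fact ℓ.Prime] (J : Matrix (Fin n) (Fin n) ℤ_[ℓ]), c ≤ ℓ → IsFormOn T J →
    IsPrimitive J (β ℓ) → HasReflection J (β ℓ) → HasElementOfOrder (β ℓ) →
    HasIndexAtMost c (Set.range (β ℓ)) {m | mᵀ * J * m = J}

/-- For almost all `ℓ` the group `ρ_ℓ(Δ)` has index at most `C` in `𝐆(ℤ_ℓ)`. -/
def HasAlmostAlwaysIndexAtMost {G : Type} [Group G] {ι : Type} [Fintype ι] [DecidableEq ι]
    (C : ℕ) (h : ℂ → Matrix ι ι ℂ) (B : Matrix ι ι ℚ) (ρ : RationalSystem G ι) (Δ : Subgroup G) :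
    Prop :=
  ForAlmostAllPrimes fun ℓ _ => HasIndexAtMost C (ρ ℓ '' Δ) (integralPoints h B ℓ)

/-- **The integral Mumford-Tate conjecture for `H^2` and residual Galois groups.** -/
theorem result (n : ℕ) (hn : (Odd n ∧ 5 ≤ n) ∨ (Even n ∧ 8 ≤ n)) : ∃ c : ℕ, ∀ (T : HS n)
    -- the Galois group
    (K : Type) [Field K] [NumberField K] (Γ : Type) [Group Γ] [TopologicalSpace Γ]
    [IsTopologicalGroup Γ] [CompactSpace Γ] (s : AbsoluteGaloisGroup K →* Γ) (_ : Continuous s)
    (S : Set (HeightOneSpectrum (𝓞 K))) (_ : S.Finite)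
    (P : HeightOneSpectrum (𝓞 K) → Polynomial ℚ)
    (κ : Type) [Fintype κ] [DecidableEq κ] (α : RationalSystem Γ κ) (β : IntegralSystem Γ n)
    (_ : ∀ (ℓ : ℕ) [Fact ℓ.Prime], IsSystem s T S P ℓ (α ℓ) (β ℓ))
    -- the Mumford-Tate group
    (_ : HasFullMumfordTateGroup κ T ∨ IsBig T)
    -- the lattice
    (B : Matrix (κ ⊕ Fin n) (κ ⊕ Fin n) ℚ) (_ : B.det ≠ 0)
    (_ : ∀ (ℓ : ℕ) [Fact ℓ.Prime] (σ : Γ), PreservesLattice B (cohomology α β ℓ σ)),
    -- one prime number
    HasUniformBound c T (restriction s β) ∧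
    -- all prime numbers
    (HasReflections T (restriction s β) →
      ∀ Δ : Subgroup (AbsoluteGaloisGroup K), IsConnecting (pullback s (cohomology α β)) Δ →
      (IntegralMumfordTateConjecture (hodge κ T) B (pullback s (cohomology α β)) Δ ↔
        SatisfiesCriterion T (restriction s β)) ∧
      (IntegralMumfordTateConjecture (hodge κ T) B (pullback s (cohomology α β)) Δ →
        HasAlmostAlwaysIndexAtMost (c * Δ.index) (hodge κ T) B (pullback s (cohomology α β)) Δ ∧
        ∀ Δ' : Subgroup Γ, IsConnecting (cohomology α β) Δ' →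
          IntegralMumfordTateConjecture (hodge κ T) B (cohomology α β) Δ')) := by
  refine ⟨Pool.Agent.U175.LP.cst n, ?_⟩
  intro T K _ _ Γ _ _ _ _ s hs S hS P κ _ _ α β hsys hMT B hB hlat
  have hn5 : 5 ≤ n := by
    rcases hn with ⟨-, h⟩ | ⟨-, h⟩ <;> omega
  have hFull : Pool.Agent.U273.AI.FullMT T κ := by
    rcases hMT with h | ⟨hEnd, p', q, htr, hn', hpq⟩
    · exact Pool.Agent.U273.AI.fullMT_of_eq h
    · refine Pool.Agent.U273.AI.fullMT_of_big (p := fun _ => p') (q := fun _ => q) ?_
      refine ⟨fun a b hab => absurd rfl hab, fun a b hab => absurd rfl hab, fun A hA => ?_,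
        fun i => ?_, fun i => ?_, fun i => ?_⟩
      · obtain ⟨c, hc⟩ := hEnd A hA
        exact ⟨fun _ => c, by rw [hc, Matrix.smul_one_eq_diagonal]⟩
      · rw [← htr, Matrix.trace]
        refine Finset.sum_congr ?_ fun _ _ => rfl
        ext a
        simp [Subsingleton.elim (0 : Fin 1) i]
      · have h1 : (Finset.univ.filter fun a : Fin n => Pool.Agent.R932.one1 n a = i) =
            Finset.univ := by
          ext a
          simp [Subsingleton.elim (0 : Fin 1) i]
        rw [h1, Finset.card_univ, Fintype.card_fin, hn']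
      · rcases hpq with ⟨h1, h2⟩ | h1
        · refine Or.inl ⟨h1, h2, ?_⟩
          rintro h3
          rw [h1, h3] at hn'
          rcases hn with ⟨-, h4⟩ | ⟨-, h4⟩ <;> omega
        · exact Or.inr h1
  have hrep : ∀ (ℓ : ℕ) [Fact ℓ.Prime], Pool.Agent.R932.RepT s T S P ℓ (β ℓ) := fun ℓ _ =>
    ⟨(hsys ℓ).2.2.1, (hsys ℓ).2.2.2.1, (hsys ℓ).2.2.2.2⟩
  obtain ⟨kd, hfit⟩ : ∃ kd : Pool.Agent.R932.PO.Kind, Pool.Agent.R932.PO.Fits kd T.Q := by
    rcases hn with ⟨h1, h2⟩ | ⟨h1, h2⟩
    · exact ⟨.odd, ⟨T.symm, h1, h2⟩⟩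
    · exact ⟨.even, ⟨T.symm, h1, h2⟩⟩
  constructor
  · intro ℓ _ J hℓ hJ hprim ⟨g, v, hv, hg⟩ hord
    exact Pool.Agent.U175.LP.one_prime (R := (β ℓ).comp s) ((hsys ℓ).2.2.1.comp hs) (by omega) hℓ
      (fun σ => (hsys ℓ).2.2.2.1 (s σ)) ⟨hJ.1, hJ.2, hprim, ⟨v, hv, g, hg⟩, hord⟩
  · intro hrefl Δ hΔ
    have hmain := Pool.Agent.U175.LP.integral_main hfit hn5 hFull hS hs α
      (fun ℓ _ => ⟨(hsys ℓ).1, (hsys ℓ).2.1⟩) β hrep hB hlat ?_ Δ hΔ.1 hΔ.2
    · obtain ⟨h1, h2, h3⟩ := hmain
      refine ⟨?_, fun h => ⟨h3 h, fun Δ' hΔ' => h2 h Δ' hΔ'.1 hΔ'.2⟩⟩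
      refine Iff.trans h1 (and_congr Iff.rfl ?_)
      have e1 : ∀ (A A' : Set ℕ), A = A' → (A.Finite ↔ A'.Finite) := fun A A' h => by rw [h]
      refine e1 _ _ ?_
      ext ℓ
      refine exists_congr fun hℓ => not_congr (forall_congr' fun J => ?_)
      exact ⟨fun h hJ => h hJ.1 hJ.2, fun h h4 h5 => h ⟨h4, h5⟩⟩
    · refine hrefl.subset ?_
      rintro ℓ ⟨hℓ, hno⟩
      refine ⟨hℓ, fun h => hno fun J h4 h5 => ?_⟩
      obtain ⟨g, v, hv, hg⟩ := h J ⟨h4, h5⟩
      exact ⟨v, hv, g, hg⟩

end

end Pool.Agent.Results.MP_2b5912_ag.ResidualCriterion
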